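import Mathlib

set_option autoImplicit false
set_option linter.unusedSectionVars false

namespace Pool.Agent.Results.MP_15e198_al.Main

open FreeGroup

variable {α : Type} [DecidableEq α]

/-! ### Subtrees of the free group and the covering action -/

/-- A set of elements containing `1` and closed under removing the first letter of a reduced word. -/
structure IsTree (V : Set (FreeGroup α)) : Prop where
  one_mem : (1 : FreeGroup α) ∈ V
  tail_mem : ∀ (c : α × Bool) (L : List (α × Bool)), IsReduced (c :: L) →
    mk (c :: L) ∈ V → mk L ∈ V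

/-- The pairs (letter, vertex) whose product leaves the tree. -/
abbrev NT (V : Set (FreeGroup α)) : Type := {p : α × V // of p.1 * (p.2 : FreeGroup α) ∉ V}

open Classical in
noncomputable def lab (V : Set (FreeGroup α)) (a : α) (v : V) : FreeGroup (NT V) :=
  if h : of a * (v : FreeGroup α) ∈ V then 1 else of ⟨(a, v), h⟩

noncomputable def covP (V : Set (FreeGroup α)) (σ : α → Equiv.Perm V) (a : α) :
    Equiv.Perm (V × FreeGroup (NT V)) where
  toFun p := (σ a p.1, lab V a p.1 * p.2)
  invFun p := ((σ a).symm p.1, (lab V a ((σ a).symm p.1))⁻¹ * p.2)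
  left_inv p := by simp
  right_inv p := by simp

noncomputable def rho (V : Set (FreeGroup α)) (σ : α → Equiv.Perm V) :
    FreeGroup α →* Equiv.Perm (V × FreeGroup (NT V)) := FreeGroup.lift (covP V σ)

theorem rho_of (V : Set (FreeGroup α)) (σ : α → Equiv.Perm V) (a : α) (v : V)
    (g : FreeGroup (NT V)) : rho V σ (of a) (v, g) = (σ a v, lab V a v * g) := by
  simp [rho, covP]

theorem mk_cons_true (a : α) (L : List (α × Bool)) : mk ((a, true) :: L) = of a * mk L := by
  simp [of]

theorem mk_cons_false (a : α) (L : List (α × Bool)) : mk ((a, false) :: L) = (of a)⁻¹ * mk L := by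
  rw [of, inv_mk, mul_mk]; rfl

theorem rho_tree {V : Set (FreeGroup α)} (hV : IsTree V) (σ : α → Equiv.Perm V)
    (hσ : ∀ (a : α) (v w : V), (w : FreeGroup α) = of a * v → σ a v = w)
    (L : List (α × Bool)) (hL : IsReduced L) (v : V) (hv : (v : FreeGroup α) = mk L)
    (g : FreeGroup (NT V)) :
    rho V σ (mk L) (⟨1, hV.one_mem⟩, g) = (v, g) := by
  induction L generalizing v with
  | nil =>
    have : (mk [] : FreeGroup α) = 1 := rfl
    rw [this, _root_.map_one, Equiv.Perm.one_apply]
    congr 1
    exact Subtype.ext (by rw [hv, this])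
  | cons c L ih =>
    obtain ⟨a, b⟩ := c
    have hL' : IsReduced L := hL.tail
    have h' : mk L ∈ V := hV.tail_mem _ _ hL (hv ▸ v.2)
    have ih' := ih hL' ⟨mk L, h'⟩ rfl
    cases b with
    | true =>
      have e1 : mk ((a, true) :: L) = of a * mk L := mk_cons_true a L
      rw [e1] at hv
      have e3 : lab V a ⟨mk L, h'⟩ = 1 := by
        simp only [lab]; rw [dif_pos (hv ▸ v.2)]
      rw [e1, _root_.map_mul, Equiv.Perm.mul_apply, ih', rho_of, e3, hσ a ⟨mk L, h'⟩ v hv, one_mul]
    | false =>
      have e1 : mk ((a, false) :: L) = (of a)⁻¹ * mk L := mk_cons_false a L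
      have e2 : mk L = of a * (v : FreeGroup α) := by rw [hv, e1]; group
      have e3 : rho V σ (of a) (v, g) = (⟨mk L, h'⟩, g) := by
        rw [rho_of, hσ a v ⟨mk L, h'⟩ e2]
        have e4 : lab V a v = 1 := by simp only [lab]; rw [dif_pos (e2 ▸ h')]
        rw [e4, one_mul]
      rw [e1, _root_.map_mul, Equiv.Perm.mul_apply, ih', ← e3, _root_.map_inv,
        Equiv.Perm.inv_eq_iff_eq]

/-- The Schreier generator attached to a pair leaving the tree. -/
noncomputable def gen (V : Set (FreeGroup α)) (σ : α → Equiv.Perm V) (y : NT V) : FreeGroup α :=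
  ((σ y.1.1 y.1.2 : V) : FreeGroup α)⁻¹ * of y.1.1 * (y.1.2 : FreeGroup α)

theorem rho_tree' {V : Set (FreeGroup α)} (hV : IsTree V) (σ : α → Equiv.Perm V)
    (hσ : ∀ (a : α) (v w : V), (w : FreeGroup α) = of a * v → σ a v = w)
    (v : V) (g : FreeGroup (NT V)) :
    rho V σ (v : FreeGroup α) (⟨1, hV.one_mem⟩, g) = (v, g) := by
  have := rho_tree hV σ hσ (toWord (v : FreeGroup α)) isReduced_toWord v mk_toWord.symm g
  rwa [mk_toWord] at this

theorem rho_gen {V : Set (FreeGroup α)} (hV : IsTree V) (σ : α → Equiv.Perm V)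
    (hσ : ∀ (a : α) (v w : V), (w : FreeGroup α) = of a * v → σ a v = w)
    (y : NT V) (g : FreeGroup (NT V)) :
    rho V σ (gen V σ y) (⟨1, hV.one_mem⟩, g) = (⟨1, hV.one_mem⟩, of y * g) := by
  obtain ⟨⟨a, v⟩, hy⟩ := y
  have e3 : lab V a v = of ⟨(a, v), hy⟩ := by simp only [lab]; rw [dif_neg hy]
  rw [gen, _root_.map_mul, _root_.map_mul, Equiv.Perm.mul_apply, Equiv.Perm.mul_apply,
    rho_tree' hV σ hσ, rho_of, e3, _root_.map_inv, Equiv.Perm.inv_eq_iff_eq, rho_tree' hV σ hσ]

theorem rho_lift {V : Set (FreeGroup α)} (hV : IsTree V) (σ : α → Equiv.Perm V)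
    (hσ : ∀ (a : α) (v w : V), (w : FreeGroup α) = of a * v → σ a v = w)
    (w : FreeGroup (NT V)) : ∀ (g : FreeGroup (NT V)),
    rho V σ (FreeGroup.lift (gen V σ) w) (⟨1, hV.one_mem⟩, g) = (⟨1, hV.one_mem⟩, w * g) := by
  induction w using FreeGroup.induction_on with
  | C1 => intro g; simp
  | of y => intro g; rw [lift_apply_of, rho_gen hV σ hσ]
  | inv_of y ih =>
    intro g
    rw [_root_.map_inv, _root_.map_inv, Equiv.Perm.inv_eq_iff_eq, lift_apply_of, rho_gen hV σ hσ]
    simp
  | mul x y hx hy =>
    intro g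
    rw [_root_.map_mul, _root_.map_mul, Equiv.Perm.mul_apply, hy, hx, mul_assoc]

theorem lift_gen_injective {V : Set (FreeGroup α)} (hV : IsTree V) (σ : α → Equiv.Perm V)
    (hσ : ∀ (a : α) (v w : V), (w : FreeGroup α) = of a * v → σ a v = w) :
    Function.Injective (FreeGroup.lift (gen V σ)) := by
  intro w w' h
  have h1 := rho_lift hV σ hσ w 1
  have h2 := rho_lift hV σ hσ w' 1
  rw [h, h2] at h1
  simpa using (Prod.ext_iff.1 h1).2.symm

/-! ### Counting -/

theorem step_cases (c : α × Bool) (v : FreeGroup α) :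
    (IsReduced (c :: toWord v) ∧ toWord (mk [c] * v) = c :: toWord v) ∨
    (∃ L, toWord v = (c.1, !c.2) :: L ∧ toWord (mk [c] * v) = L) := by
  obtain ⟨a, b⟩ := c
  have e0 : mk [(a, b)] * v = mk ((a, b) :: toWord v) := by
    conv_lhs => rw [← mk_toWord (x := v), mul_mk]
    rfl
  by_cases h : IsReduced ((a, b) :: toWord v)
  · left
    refine ⟨h, ?_⟩
    rw [e0, toWord_mk, h.reduce_eq]
  · right
    have hv : IsReduced (toWord v) := isReduced_toWord
    generalize toWord v = W at *
    cases W with
    | nil => simp at h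
    | cons c' L =>
      obtain ⟨a', b'⟩ := c'
      rw [isReduced_cons_cons] at h
      simp only [hv, and_true, not_forall] at h
      obtain ⟨h1, h2⟩ := h
      change a = a' at h1
      change ¬ b = b' at h2
      subst h1
      have h3 : b' = !b := by
        cases b <;> cases b' <;> simp_all
      subst h3
      refine ⟨L, rfl, ?_⟩
      have hL : IsReduced L := hv.tail
      have e4 : (mk ((a, b) :: (a, !b) :: L) : FreeGroup α) = mk L := by
        apply Quot.sound
        simp
      rw [e0, e4, toWord_mk, hL.reduce_eq]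

theorem toWord_mk_of {L : List (α × Bool)} (h : IsReduced L) : toWord (mk L) = L := by
  rw [toWord_mk, h.reduce_eq]

abbrev TE (V : Set (FreeGroup α)) : Type := {p : α × V // of p.1 * (p.2 : FreeGroup α) ∈ V}

theorem card_TE {V : Set (FreeGroup α)} (hV : IsTree V) [Finite V] :
    Nat.card (TE V) + 1 = Nat.card V := by
  classical
  let one : V := ⟨1, hV.one_mem⟩
  have key : Nat.card (TE V) = Nat.card {v : V // v ≠ one} := by
    let f : TE V → {v : V // v ≠ one} := fun p =>
      if h : IsReduced ((p.1.1, true) :: toWord (p.1.2 : FreeGroup α)) then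
        ⟨⟨of p.1.1 * (p.1.2 : FreeGroup α), p.2⟩, by
          intro h2
          have h3 : of p.1.1 * (p.1.2 : FreeGroup α) = 1 := congrArg Subtype.val h2
          rcases step_cases (p.1.1, true) (p.1.2 : FreeGroup α) with h4 | ⟨L, h4, _⟩
          · have h5 := h4.2
            rw [show (mk [(p.1.1, true)] : FreeGroup α) = of p.1.1 from rfl, h3, toWord_one] at h5
            simp at h5
          · rw [h4, isReduced_cons_cons] at h
            simpa using h.1⟩
      else ⟨p.1.2, by
          intro h2
          have h3 : (p.1.2 : FreeGroup α) = 1 := congrArg Subtype.val h2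
          rw [h3, toWord_one] at h
          exact h IsReduced.singleton⟩
    refine Nat.card_eq_of_bijective f ⟨?_, ?_⟩
    · rintro ⟨⟨a, v⟩, hp⟩ ⟨⟨a', v'⟩, hp'⟩ hf
      have s1 := step_cases (a, true) (v : FreeGroup α)
      have s2 := step_cases (a', true) (v' : FreeGroup α)
      simp only [f] at hf
      split_ifs at hf with h1 h2 h2
      · have hf' : of a * (v : FreeGroup α) = of a' * (v' : FreeGroup α) :=
          congrArg (fun x => ((x : V) : FreeGroup α)) (congrArg Subtype.val hf)
        rcases s1 with s1 | ⟨L, h4, _⟩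
        · rcases s2 with s2 | ⟨L, h4, _⟩
          · have e := s1.2
            rw [show (mk [(a, true)] : FreeGroup α) = of a from rfl, hf',
              show of a' * (v' : FreeGroup α) = mk [(a', true)] * v' from rfl, s2.2] at e
            simp only [List.cons.injEq, Prod.mk.injEq, and_true] at e
            obtain ⟨e1, e2⟩ := e
            have e3 : v = v' := Subtype.ext (toWord_injective e2.symm)
            subst e1
            subst e3
            rfl
          · rw [h4, isReduced_cons_cons] at h2
            simp at h2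
        · rw [h4, isReduced_cons_cons] at h1
          simp at h1
      · have hf' : of a * (v : FreeGroup α) = (v' : FreeGroup α) :=
          congrArg (fun x => ((x : V) : FreeGroup α)) (congrArg Subtype.val hf)
        rcases s1 with s1 | ⟨L, h4, _⟩
        · rcases s2 with s2 | ⟨L, h4, _⟩
          · exact absurd s2.1 h2
          · have e := s1.2
            rw [show (mk [(a, true)] : FreeGroup α) = of a from rfl, hf', h4] at e
            simp at e
        · rw [h4, isReduced_cons_cons] at h1
          simp at h1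
      · have hf' : (v : FreeGroup α) = of a' * (v' : FreeGroup α) :=
          congrArg (fun x => ((x : V) : FreeGroup α)) (congrArg Subtype.val hf)
        rcases s2 with s2 | ⟨L, h4, _⟩
        · rcases s1 with s1 | ⟨L, h4, _⟩
          · exact absurd s1.1 h1
          · have e := s2.2
            rw [show (mk [(a', true)] : FreeGroup α) = of a' from rfl, ← hf', h4] at e
            simp at e
        · rw [h4, isReduced_cons_cons] at h2
          simp at h2
      · have hf' : v = v' := congrArg Subtype.val hf
        subst hf'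
        rcases s1 with s1 | ⟨L, h4, _⟩
        · exact absurd s1.1 h1
        · rcases s2 with s2 | ⟨L', h4', _⟩
          · exact absurd s2.1 h2
          · rw [h4] at h4'
            simp only [List.cons.injEq, Prod.mk.injEq, and_true] at h4'
            have := h4'.1
            subst this
            rfl
    · rintro ⟨⟨w, hw⟩, hw1⟩
      have hw1' : w ≠ 1 := fun h => hw1 (Subtype.ext h)
      have hred : IsReduced (toWord w) := isReduced_toWord
      have hmk : mk (toWord w) = w := mk_toWord
      rcases hW : toWord w with _ | ⟨⟨a, b⟩, L⟩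
      · exact absurd (toWord_eq_nil_iff.1 hW) hw1'
      · rw [hW] at hred hmk
        have hL : IsReduced L := hred.tail
        have hLV : mk L ∈ V := hV.tail_mem _ _ hred (hmk ▸ hw)
        have hLw : toWord (mk L) = L := toWord_mk_of hL
        cases b with
        | true =>
          have e : of a * mk L = w := by rw [← mk_cons_true, hmk]
          refine ⟨⟨(a, ⟨mk L, hLV⟩), by simpa [e] using hw⟩, ?_⟩
          simp only [f]
          rw [dif_pos (by rw [hLw]; exact hred)]
          exact Subtype.ext (Subtype.ext e)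
        | false =>
          have e : of a * w = mk L := by
            rw [← hmk, mk_cons_false]; group
          refine ⟨⟨(a, ⟨w, hw⟩), by simpa [e] using hLV⟩, ?_⟩
          simp only [f]
          rw [dif_neg]
          rw [hW, isReduced_cons_cons]
          simp
  rw [key]
  have := Nat.card_congr (Equiv.sumCompl (fun v : V => v = one))
  rw [Nat.card_sum] at this
  rw [← this]
  have h1 : Nat.card {v : V // v = one} = 1 := by simp
  rw [h1, add_comm]

theorem card_NT [Fintype α] {V : Set (FreeGroup α)} (hV : IsTree V) [Finite V] :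
    Nat.card (NT V) + Nat.card V = Fintype.card α * Nat.card V + 1 := by
  classical
  have h1 := card_TE hV
  have h2 := Nat.card_congr (Equiv.sumCompl (fun p : α × V => of p.1 * (p.2 : FreeGroup α) ∈ V))
  rw [Nat.card_sum, Nat.card_prod, Nat.card_eq_fintype_card (α := α)] at h2
  change Nat.card (TE V) + Nat.card (NT V) = _ at h2
  omega

/-- Reduced continuations of length `l` of a letter `c`. -/
abbrev RW (l : ℕ) (c : α × Bool) : Type := {L : List (α × Bool) // L.length = l ∧ IsReduced (c :: L)}

instance finite_RW [Finite α] (l : ℕ) (c : α × Bool) : Finite (RW l c) := by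
  have : {L : List (α × Bool) | L.length = l}.Finite := List.finite_length_eq _ _
  exact (this.subset (fun L hL => hL.1) : {L : List (α × Bool) | L.length = l ∧ IsReduced (c :: L)}.Finite)

def rwEquiv (l : ℕ) (c : α × Bool) :
    RW (l + 1) c ≃ Σ c' : {c' : α × Bool // c.1 = c'.1 → c.2 = c'.2}, RW l (c'.1) where
  toFun L := match L with
    | ⟨[], h⟩ => absurd h.1 (by simp)
    | ⟨c' :: L', h⟩ => ⟨⟨c', (isReduced_cons_cons.1 h.2).1⟩, ⟨L', by simpa using h.1,
        (isReduced_cons_cons.1 h.2).2⟩⟩
  invFun x := ⟨x.1.1 :: x.2.1, by simp [x.2.2.1], isReduced_cons_cons.2 ⟨x.1.2, x.2.2.2⟩⟩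
  left_inv L := by
    obtain ⟨L, h⟩ := L
    cases L with
    | nil => exact absurd h.1 (by simp)
    | cons c' L' => rfl
  right_inv x := by
    obtain ⟨⟨c', h⟩, ⟨L, h'⟩⟩ := x
    rfl

theorem card_RW [Fintype α] [Nonempty α] (l : ℕ) : ∀ c : α × Bool,
    Nat.card (RW l c) = (2 * Fintype.card α - 1) ^ l := by
  induction l with
  | zero =>
    intro c
    have : Unique (RW 0 c) := {
      default := ⟨[], rfl, IsReduced.singleton⟩
      uniq := by
        rintro ⟨L, h1, h2⟩
        exact Subtype.ext (List.length_eq_zero_iff.1 h1) }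
    simp
  | succ l ih =>
    intro c
    classical
    rw [Nat.card_congr (rwEquiv l c), Nat.card_sigma]
    simp only [ih]
    rw [Finset.sum_const, smul_eq_mul, pow_succ, mul_comm]
    congr 1
    rw [Finset.card_univ]
    have e : Fintype.card {c' : α × Bool // c.1 = c'.1 → c.2 = c'.2}
        = Fintype.card {c' : α × Bool // ¬ (c' = (c.1, !c.2))} := by
      apply Fintype.card_congr
      apply Equiv.subtypeEquivRight
      rintro ⟨a, b⟩
      obtain ⟨a', b'⟩ := c
      simp only [Prod.mk.injEq]
      constructor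
      · rintro h ⟨rfl, rfl⟩
        have := h rfl
        cases b' <;> simp at this
      · rintro h rfl
        by_contra hne
        apply h
        refine ⟨rfl, ?_⟩
        cases b <;> cases b' <;> simp_all
    rw [e, Fintype.card_subtype_compl]
    simp [mul_comm]

/-- The ball of radius `m`. -/
def ball (α : Type) [DecidableEq α] (m : ℕ) : Set (FreeGroup α) := {g | g.norm ≤ m}

theorem finite_ball (α : Type) [DecidableEq α] [Finite α] (m : ℕ) : (ball α m).Finite := by
  have h1 : {L : List (α × Bool) | L.length ≤ m}.Finite := List.finite_length_le _ _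
  refine Set.Finite.of_injOn (f := toWord) (t := {L : List (α × Bool) | L.length ≤ m})
    ?_ (toWord_injective.injOn) h1
  intro g hg
  exact hg

instance (m : ℕ) [Finite α] : Finite (ball α m) := finite_ball α m

theorem isTree_ball (m : ℕ) : IsTree (ball α m) where
  one_mem := by simp [ball]
  tail_mem := by
    intro c L hL h
    have hL' : IsReduced L := hL.tail
    change norm (mk (c :: L)) ≤ m at h
    change norm (mk L) ≤ m
    rw [FreeGroup.norm, toWord_mk_of hL] at h
    rw [FreeGroup.norm, toWord_mk_of hL']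
    simp at h
    omega

theorem card_NT_ball [Fintype α] [Nonempty α] (m : ℕ) :
    Nat.card (NT (ball α m)) = Fintype.card α * (2 * Fintype.card α - 1) ^ m := by
  classical
  have key : Nat.card (NT (ball α m)) = Nat.card (Σ a : α, RW m (a, true)) := by
    have aux : ∀ y : NT (ball α m), IsReduced ((y.1.1, true) :: toWord (y.1.2 : FreeGroup α)) ∧
        (toWord (y.1.2 : FreeGroup α)).length = m := by
      rintro ⟨⟨a, v, hv⟩, hy⟩
      have hy' : m < norm (of a * v) := not_le.1 hy
      change norm v ≤ m at hv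
      rcases step_cases (a, true) v with ⟨h1, h2⟩ | ⟨L, h1, h2⟩
      · refine ⟨h1, ?_⟩
        change toWord (of a * v) = _ at h2
        rw [FreeGroup.norm, h2] at hy'
        simp at hy'
        simp only [FreeGroup.norm] at hv ⊢
        omega
      · change toWord (of a * v) = _ at h2
        rw [FreeGroup.norm, h2] at hy'
        rw [FreeGroup.norm, h1] at hv
        simp at hv
        omega
    let f : NT (ball α m) → Σ a : α, RW m (a, true) := fun y =>
      ⟨y.1.1, ⟨toWord (y.1.2 : FreeGroup α), (aux y).2, (aux y).1⟩⟩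
    refine Nat.card_eq_of_bijective f ⟨?_, ?_⟩
    · rintro ⟨⟨a, v⟩, hy⟩ ⟨⟨a', v'⟩, hy'⟩ h
      simp only [f, Sigma.mk.injEq] at h
      obtain ⟨rfl, h⟩ := h
      have h2 := congrArg Subtype.val (eq_of_heq h)
      have h3 : v = v' := Subtype.ext (toWord_injective h2)
      subst h3
      rfl
    · rintro ⟨a, ⟨L, h1, h2⟩⟩
      have hL : IsReduced L := h2.tail
      have hw : toWord (mk L) = L := toWord_mk_of hL
      have hb : mk L ∈ ball α m := by
        change norm (mk L) ≤ m
        rw [FreeGroup.norm, hw, h1]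
      have hn : of a * mk L ∉ ball α m := by
        intro h
        change norm (of a * mk L) ≤ m at h
        rw [← mk_cons_true, FreeGroup.norm, toWord_mk_of h2] at h
        simp at h
        omega
      refine ⟨⟨(a, ⟨mk L, hb⟩), hn⟩, ?_⟩
      simp only [f]
      congr 1
      exact Subtype.ext hw
  rw [key, Nat.card_sigma]
  simp [card_RW]

theorem card_ball [Fintype α] [Nonempty α] (m : ℕ) :
    Fintype.card α * (2 * Fintype.card α - 1) ^ m + Nat.card (ball α m) =
      Fintype.card α * Nat.card (ball α m) + 1 := by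
  rw [← card_NT_ball, card_NT (isTree_ball m)]

/-! ### The lower bound -/

theorem exists_free {V : Set (FreeGroup α)} (hV : IsTree V) [Finite V] [Finite α]
    (σ : α → Equiv.Perm V)
    (hσ : ∀ (a : α) (v w : V), (w : FreeGroup α) = of a * v → σ a v = w) :
    ∃ X : Finset (FreeGroup α), (∀ x ∈ X, ∃ y, gen V σ y = x) ∧
      Function.Injective (FreeGroup.lift (fun x : X => (x : FreeGroup α))) ∧
      X.card = Nat.card (NT V) := by
  classical
  have hinj := lift_gen_injective hV σ hσ
  have hgen : Function.Injective (gen V σ) := by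
    intro y y' h
    apply FreeGroup.of_injective
    apply hinj
    rw [lift_apply_of, lift_apply_of, h]
  let _ : Fintype (NT V) := Fintype.ofFinite _
  refine ⟨Finset.univ.image (gen V σ), ?_, ?_, ?_⟩
  · intro x hx
    simpa using hx
  · let e : NT V ≃ {x // x ∈ Finset.univ.image (gen V σ)} :=
      Equiv.ofBijective (fun y => ⟨gen V σ y, by simp⟩) ⟨by
        intro y y' h
        exact hgen (congrArg Subtype.val h), by
        rintro ⟨x, hx⟩
        obtain ⟨y, _, hy⟩ := Finset.mem_image.1 hx
        exact ⟨y, Subtype.ext hy⟩⟩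
    have key : ∀ w, FreeGroup.lift (gen V σ) (FreeGroup.map e.symm w) =
        FreeGroup.lift (fun x : {x // x ∈ Finset.univ.image (gen V σ)} => (x : FreeGroup α)) w := by
      intro w
      have : (FreeGroup.lift (gen V σ)).comp (FreeGroup.map e.symm) =
          FreeGroup.lift (fun x : {x // x ∈ Finset.univ.image (gen V σ)} => (x : FreeGroup α)) := by
        apply FreeGroup.ext_hom
        intro x
        simp only [MonoidHom.comp_apply, map.of, lift_apply_of]
        exact congrArg Subtype.val (e.apply_symm_apply x)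
      exact DFunLike.congr_fun this w
    intro w w' h
    rw [← key, ← key] at h
    exact FreeGroup.map_injective e.symm.injective (hinj h)
  · rw [Finset.card_image_of_injective _ hgen, Finset.card_univ, Nat.card_eq_fintype_card]

theorem lower_odd [Fintype α] [Nonempty α] (m : ℕ) :
    ∃ X : Finset (FreeGroup α), (∀ x ∈ X, FreeGroup.norm x ≤ 2 * m + 1) ∧
      Function.Injective (FreeGroup.lift (fun x : X => (x : FreeGroup α))) ∧
      X.card = Fintype.card α * (2 * Fintype.card α - 1) ^ m := by
  classical
  have hσ0 : ∀ a : α, ∃ σ : Equiv.Perm (ball α m),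
      ∀ d : {v : ball α m // of a * (v : FreeGroup α) ∈ ball α m}, σ d.1 = ⟨of a * d.1, d.2⟩ := by
    intro a
    refine Equiv.Perm.exists_extending_pair
      (fun d : {v : ball α m // of a * (v : FreeGroup α) ∈ ball α m} => d.1)
      (fun d => (⟨of a * d.1, d.2⟩ : ball α m)) Subtype.val_injective ?_
    intro d d' h
    have h1 : of a * (d.1 : FreeGroup α) = of a * (d'.1 : FreeGroup α) := congrArg Subtype.val h
    exact Subtype.ext (Subtype.ext (mul_left_cancel h1))
  choose σ hσ1 using hσ0
  have hσ : ∀ (a : α) (v w : ball α m), (w : FreeGroup α) = of a * v → σ a v = w := by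
    intro a v w h
    have := hσ1 a ⟨v, h ▸ w.2⟩
    rw [this]
    exact Subtype.ext h.symm
  obtain ⟨X, h1, h2, h3⟩ := exists_free (isTree_ball m) σ hσ
  refine ⟨X, ?_, h2, by rw [h3, card_NT_ball]⟩
  intro x hx
  obtain ⟨y, rfl⟩ := h1 x hx
  rw [gen]
  have e1 : FreeGroup.norm ((σ y.1.1 y.1.2 : ball α m) : FreeGroup α) ≤ m := (σ y.1.1 y.1.2).2
  have e2 : FreeGroup.norm (y.1.2 : FreeGroup α) ≤ m := y.1.2.2
  have e3 := FreeGroup.norm_mul_le (((σ y.1.1 y.1.2 : ball α m) : FreeGroup α)⁻¹ * of y.1.1)
    (y.1.2 : FreeGroup α)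
  have e4 := FreeGroup.norm_mul_le (((σ y.1.1 y.1.2 : ball α m) : FreeGroup α)⁻¹) (of y.1.1)
  rw [FreeGroup.norm_inv_eq, FreeGroup.norm_of] at e4
  omega

theorem isReduced_map {f : α → α} (hf : Function.Injective f) {L : List (α × Bool)}
    (h : IsReduced L) : IsReduced (L.map fun x => (f x.1, x.2)) := by
  induction L with
  | nil => simp
  | cons c L ih =>
    cases L with
    | nil => simp
    | cons c' L =>
      rw [isReduced_cons_cons] at h
      simp only [List.map_cons] at ih ⊢
      rw [isReduced_cons_cons]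
      exact ⟨fun e => h.1 (hf e), ih h.2⟩

theorem toWord_map {f : α → α} (hf : Function.Injective f) (g : FreeGroup α) :
    toWord (FreeGroup.map f g) = (toWord g).map fun x => (f x.1, x.2) := by
  conv_lhs => rw [← mk_toWord (x := g), FreeGroup.map.mk]
  exact toWord_mk_of (isReduced_map hf isReduced_toWord)

/-- Elements of length `m + 1` whose first letter is `a₀`. -/
def outer (a₀ : α) (m : ℕ) : Set (FreeGroup α) := {g | ∃ L, toWord g = (a₀, true) :: L ∧ L.length = m}

theorem outer_norm {a₀ : α} {m : ℕ} {g : FreeGroup α} (h : g ∈ outer a₀ m) :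
    FreeGroup.norm g = m + 1 := by
  obtain ⟨L, h1, h2⟩ := h
  rw [FreeGroup.norm, h1, List.length_cons, h2]

theorem finite_outer [Finite α] (a₀ : α) (m : ℕ) : (outer a₀ m).Finite :=
  (finite_ball α (m + 1)).subset (fun _ hg => (outer_norm hg).le)

theorem card_outer [Fintype α] [Nonempty α] (a₀ : α) (m : ℕ) :
    Nat.card (outer a₀ m) = (2 * Fintype.card α - 1) ^ m := by
  rw [← card_RW m (a₀, true)]
  let f : outer a₀ m → RW m (a₀, true) := fun g => ⟨(toWord (g : FreeGroup α)).tail, by
    obtain ⟨g, L, h1, h2⟩ := g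
    have hr : IsReduced (toWord g) := isReduced_toWord
    simp only
    rw [h1] at hr ⊢
    exact ⟨h2, hr⟩⟩
  refine Nat.card_eq_of_bijective f ⟨?_, ?_⟩
  · rintro ⟨g, L, h1, h2⟩ ⟨g', L', h1', h2'⟩ h
    have h3 := congrArg Subtype.val h
    simp only [f] at h3
    rw [h1, h1'] at h3
    simp only [List.tail_cons] at h3
    subst h3
    apply Subtype.ext
    apply toWord_injective
    simp only
    rw [h1, h1']
  · rintro ⟨L, h1, h2⟩
    refine ⟨⟨mk ((a₀, true) :: L), L, toWord_mk_of h2, h1⟩, ?_⟩
    apply Subtype.ext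
    simp only [f]
    rw [toWord_mk_of h2]
    rfl

theorem isTree_even (a₀ : α) (m : ℕ) : IsTree (ball α m ∪ outer a₀ m) where
  one_mem := Or.inl (isTree_ball m).one_mem
  tail_mem := by
    intro c L hL h
    left
    rcases h with h | h
    · exact (isTree_ball m).tail_mem c L hL h
    · have hL' : IsReduced L := hL.tail
      have h2 := outer_norm h
      rw [FreeGroup.norm, toWord_mk_of hL] at h2
      change FreeGroup.norm (mk L) ≤ m
      rw [FreeGroup.norm, toWord_mk_of hL']
      simp at h2
      omega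

theorem lower_even [Fintype α] [Nonempty α] (m : ℕ) :
    ∃ X : Finset (FreeGroup α), (∀ x ∈ X, FreeGroup.norm x ≤ 2 * m + 2) ∧
      Function.Injective (FreeGroup.lift (fun x : X => (x : FreeGroup α))) ∧
      X.card = (2 * Fintype.card α - 1) ^ (m + 1) := by
  classical
  obtain ⟨a₀⟩ := ‹Nonempty α›
  have : Nonempty α := ⟨a₀⟩
  set V : Set (FreeGroup α) := ball α m ∪ outer a₀ m with hVdef
  have hV : IsTree V := isTree_even a₀ m
  have hfin : V.Finite := (finite_ball α m).union (finite_outer a₀ m)
  have : Finite V := hfin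
  have hdisj : ∀ g : FreeGroup α, g ∈ ball α m → g ∈ outer a₀ m → False := by
    intro g h1 h2
    have := outer_norm h2
    change FreeGroup.norm g ≤ m at h1
    omega
  let τ : α → FreeGroup α →* FreeGroup α := fun a => FreeGroup.map (Equiv.swap a a₀)
  have hτ2 : ∀ a g, τ a (τ a g) = g := by
    intro a g
    simp only [τ]
    rw [FreeGroup.map.comp]
    conv_rhs => rw [← FreeGroup.map.id g]
    congr 2
    funext x
    simp
  have hword : ∀ (a : α) (v : FreeGroup α), v ∈ ball α m → of a * v ∉ ball α m →
      IsReduced ((a, true) :: toWord v) ∧ toWord (of a * v) = (a, true) :: toWord v ∧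
        (toWord v).length = m := by
    intro a v hv hy
    have hy' : m < FreeGroup.norm (of a * v) := not_le.1 hy
    change FreeGroup.norm v ≤ m at hv
    rcases step_cases (a, true) v with ⟨h1, h2⟩ | ⟨L, h1, h2⟩
    · change toWord (of a * v) = _ at h2
      refine ⟨h1, h2, ?_⟩
      rw [FreeGroup.norm, h2] at hy'
      simp at hy'
      simp only [FreeGroup.norm] at hv ⊢
      omega
    · change toWord (of a * v) = _ at h2
      rw [FreeGroup.norm, h2] at hy'
      rw [FreeGroup.norm, h1] at hv
      simp at hv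
      omega
  have hτO : ∀ (a : α) (v : FreeGroup α), v ∈ ball α m → of a * v ∉ ball α m →
      τ a (of a * v) ∈ outer a₀ m := by
    intro a v hv hy
    obtain ⟨h1, h2, h3⟩ := hword a v hv hy
    refine ⟨(toWord v).map fun x => (Equiv.swap a a₀ x.1, x.2), ?_, by simpa using h3⟩
    simp only [τ]
    rw [toWord_map (Equiv.injective _), h2]
    simp
  let D : Type := {v : V // (v : FreeGroup α) ∈ ball α m}
  have hσ0 : ∀ a : α, ∃ σ : Equiv.Perm V, (∀ (v w : V), (w : FreeGroup α) = of a * v → σ v = w) ∧
      (∀ v : V, (v : FreeGroup α) ∈ outer a₀ m → ((σ v : V) : FreeGroup α) ∈ ball α m) := by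
    intro a
    let g : D → V := fun d =>
      if h : of a * ((d.1 : V) : FreeGroup α) ∈ ball α m then ⟨_, Or.inl h⟩
      else ⟨τ a (of a * ((d.1 : V) : FreeGroup α)), Or.inr (hτO a _ d.2 h)⟩
    have hg : Function.Injective g := by
      intro d d' h
      simp only [g] at h
      split_ifs at h with h1 h2 h2
      · have h3 := congrArg Subtype.val h
        exact Subtype.ext (Subtype.ext (mul_left_cancel h3))
      · have h3 := congrArg Subtype.val h
        simp only at h3
        exact (hdisj _ h1 (h3 ▸ hτO a _ d'.2 h2)).elim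
      · have h3 := congrArg Subtype.val h
        simp only at h3
        exact (hdisj _ h2 (h3 ▸ hτO a _ d.2 h1)).elim
      · have h3 := congrArg Subtype.val h
        simp only at h3
        have h4 := congrArg (τ a) h3
        rw [hτ2, hτ2] at h4
        exact Subtype.ext (Subtype.ext (mul_left_cancel h4))
    obtain ⟨σ, hσ⟩ := Equiv.Perm.exists_extending_pair (fun d : D => d.1) g
      Subtype.val_injective hg
    refine ⟨σ, ?_, ?_⟩
    · intro v w hw
      rcases v.2 with hv | hv
      · have h1 := hσ ⟨v, hv⟩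
        simp only at h1
        rw [h1]
        simp only [g]
        split_ifs with h2
        · exact Subtype.ext hw.symm
        · obtain ⟨h3, h4, h5⟩ := hword a v hv h2
          have hwO : (w : FreeGroup α) ∈ outer a₀ m := by
            rcases w.2 with h6 | h6
            · exact absurd (hw ▸ h6) h2
            · exact h6
          obtain ⟨L, h7, h8⟩ := hwO
          rw [hw, h4] at h7
          have h9 : a = a₀ := by
            have := (List.cons.inj h7).1
            exact congrArg Prod.fst this
          subst h9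
          apply Subtype.ext
          simp only [τ]
          rw [hw, Equiv.swap_self]
          exact FreeGroup.map.id _
      · exfalso
        obtain ⟨L, h1, h2⟩ := hv
        rcases step_cases (a, true) (v : FreeGroup α) with ⟨h3, h4⟩ | ⟨L', h3, _⟩
        · change toWord (of a * (v : FreeGroup α)) = _ at h4
          have h5 : FreeGroup.norm (w : FreeGroup α) = m + 2 := by
            rw [hw, FreeGroup.norm, h4, h1]
            simp [h2]
          rcases w.2 with h6 | h6
          · change FreeGroup.norm (w : FreeGroup α) ≤ m at h6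
            omega
          · have := outer_norm h6
            omega
        · rw [h1] at h3
          simp at h3
    · intro v hv
      rcases (σ v).2 with h1 | h1
      · exact h1
      · exfalso
        -- every outer vertex is the image of an inner vertex
        obtain ⟨L, h2, h3⟩ := h1
        set o : FreeGroup α := ((σ v : V) : FreeGroup α) with ho
        have hor : IsReduced ((a₀, true) :: L) := by rw [← h2]; exact isReduced_toWord
        set L' := L.map fun x => (Equiv.swap a a₀ x.1, x.2) with hL'
        have h4 : toWord (τ a o) = (a, true) :: L' := by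
          simp only [τ]
          rw [toWord_map (Equiv.injective _), h2]
          simp [hL']
        have h5 : IsReduced ((a, true) :: L') := by rw [← h4]; exact isReduced_toWord
        have h6 : τ a o = of a * mk L' := by
          rw [← mk_cons_true, ← h4, mk_toWord]
        have h7 : mk L' ∈ ball α m := by
          change FreeGroup.norm (mk L') ≤ m
          have h5' : IsReduced L' := h5.tail
          rw [FreeGroup.norm, toWord_mk_of h5', hL', List.length_map, h3]
        have h8 : of a * mk L' ∉ ball α m := by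
          intro h
          change FreeGroup.norm (of a * mk L') ≤ m at h
          rw [← h6, FreeGroup.norm, h4, List.length_cons, hL', List.length_map, h3] at h
          omega
        have h9 := hσ ⟨⟨mk L', Or.inl h7⟩, h7⟩
        have h10 : g ⟨⟨mk L', Or.inl h7⟩, h7⟩ = σ v := by
          simp only [g]
          rw [dif_neg h8]
          apply Subtype.ext
          simp only
          rw [← h6, hτ2]
        rw [h10] at h9
        have h11 := σ.injective h9
        have h12 : (v : FreeGroup α) = mk L' := (congrArg Subtype.val h11).symm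
        exact hdisj _ (h12 ▸ h7) hv
  choose σ hσ hσO using hσ0
  obtain ⟨X, h1, h2, h3⟩ := exists_free hV σ hσ
  refine ⟨X, ?_, h2, ?_⟩
  · intro x hx
    obtain ⟨y, rfl⟩ := h1 x hx
    obtain ⟨⟨a, v⟩, hy⟩ := y
    rw [gen]
    simp only
    have e3 := FreeGroup.norm_mul_le (((σ a v : V) : FreeGroup α)⁻¹ * of a) (v : FreeGroup α)
    have e4 := FreeGroup.norm_mul_le (((σ a v : V) : FreeGroup α)⁻¹) (of a)
    rw [FreeGroup.norm_inv_eq, FreeGroup.norm_of] at e4
    rcases v.2 with hv | hv
    · change FreeGroup.norm (v : FreeGroup α) ≤ m at hv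
      have e5 : FreeGroup.norm ((σ a v : V) : FreeGroup α) ≤ m + 1 := by
        rcases (σ a v).2 with h | h
        · change FreeGroup.norm ((σ a v : V) : FreeGroup α) ≤ m at h
          omega
        · exact (outer_norm h).le
      omega
    · have e5 : FreeGroup.norm ((σ a v : V) : FreeGroup α) ≤ m := hσO a v hv
      have e6 := outer_norm hv
      omega
  · rw [h3]
    have e1 := card_NT hV
    have e2 := card_ball (α := α) m
    have e3 : Nat.card V = Nat.card (ball α m) + (2 * Fintype.card α - 1) ^ m := by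
      rw [← card_outer a₀ m, Nat.card_coe_set_eq, Nat.card_coe_set_eq, Nat.card_coe_set_eq, hVdef]
      exact Set.ncard_union_eq (Set.disjoint_left.2 (fun g h1 h2 => hdisj g h1 h2))
        (finite_ball α m) (finite_outer a₀ m)
    have hpos : 0 < Fintype.card α := Fintype.card_pos
    obtain ⟨r, hr⟩ : ∃ r, Fintype.card α = r + 1 := ⟨Fintype.card α - 1, by omega⟩
    have e5 : 2 * (r + 1) - 1 = 2 * r + 1 := by omega
    rw [e3] at e1
    rw [hr, e5] at e1 e2 ⊢
    rw [pow_succ]
    generalize (2 * r + 1) ^ m = q at *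
    generalize Nat.card (ball α m) = B at *
    generalize Nat.card (NT V) = N at *
    nlinarith

/-! ### The upper bound -/

section paths

variable {Q : Type} [MulAction (FreeGroup α) Q]

/-- The edge traversed when the letter `c` is applied after the word `L`, starting from `q`. -/
def edge (c : α × Bool) (L : List (α × Bool)) (q : Q) : α × Q :=
  (c.1, if c.2 then (mk L : FreeGroup α) • q else (mk (c :: L) : FreeGroup α) • q)

/-- Sum of an edge function along a path. -/
def ps (f : α × Q → ZMod 2) : List (α × Bool) → Q → ZMod 2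
  | [], _ => 0
  | c :: L, q => ps f L q + f (edge c L q)

/-- All edges of the path lie in `E`. -/
def used (E : Set (α × Q)) : List (α × Bool) → Q → Prop
  | [], _ => True
  | c :: L, q => used E L q ∧ edge c L q ∈ E

theorem ps_add (f g : α × Q → ZMod 2) (L : List (α × Bool)) (q : Q) :
    ps (f + g) L q = ps f L q + ps g L q := by
  induction L with
  | nil => simp [ps]
  | cons c L ih => simp only [ps, ih, Pi.add_apply]; ring

theorem ps_smul (k : ZMod 2) (f : α × Q → ZMod 2) (L : List (α × Bool)) (q : Q) :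
    ps (k • f) L q = k * ps f L q := by
  induction L with
  | nil => simp [ps]
  | cons c L ih => simp only [ps, ih, Pi.smul_apply, smul_eq_mul]; ring

theorem ps_congr {E : Set (α × Q)} {f g : α × Q → ZMod 2} (h : ∀ e ∈ E, f e = g e)
    (L : List (α × Bool)) (q : Q) (hu : used E L q) : ps f L q = ps g L q := by
  induction L with
  | nil => simp [ps]
  | cons c L ih =>
    simp only [ps]
    rw [ih hu.1, h _ hu.2]

theorem ps_cocycle {f : α × Q → ZMod 2} {k : FreeGroup α → Q → ZMod 2}
    (h1 : ∀ q, k 1 q = 0) (hmul : ∀ g g' q, k (g * g') q = k g (g' • q) + k g' q)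
    (hf : ∀ a q, f (a, q) = k (of a) q) (L : List (α × Bool)) (q : Q) :
    ps f L q = k (mk L) q := by
  induction L with
  | nil =>
    have : (mk [] : FreeGroup α) = 1 := rfl
    rw [this, h1, ps]
  | cons c L ih =>
    obtain ⟨a, b⟩ := c
    cases b with
    | true =>
      rw [mk_cons_true, hmul, ps, ih]
      simp only [edge, if_true]
      rw [hf]; ring
    | false =>
      have e : mk L = of a * mk ((a, false) :: L) := by rw [mk_cons_false]; group
      have e2 := hmul (of a) (mk ((a, false) :: L)) q
      rw [← e] at e2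
      rw [ps, ih, e2]
      simp only [edge, Bool.false_eq_true, if_false]
      rw [hf]
      have : ∀ x y : ZMod 2, x + y + x = y := by decide
      exact this _ _

open Classical in
/-- Extension by zero. -/
noncomputable def ext0 {ι : Type} (E : Set ι) (f : E → ZMod 2) : ι → ZMod 2 :=
  fun e => if h : e ∈ E then f ⟨e, h⟩ else 0

theorem ext0_mem {ι : Type} {E : Set ι} (f : E → ZMod 2) {e : ι} (h : e ∈ E) :
    ext0 E f e = f ⟨e, h⟩ := by simp only [ext0]; rw [dif_pos h]

theorem ext0_add {ι : Type} (E : Set ι) (f g : E → ZMod 2) :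
    ext0 E (f + g) = ext0 E f + ext0 E g := by
  funext e
  by_cases h : e ∈ E <;> simp [ext0, h]

theorem ext0_smul {ι : Type} (E : Set ι) (k : ZMod 2) (f : E → ZMod 2) :
    ext0 E (k • f) = k • ext0 E f := by
  funext e
  by_cases h : e ∈ E <;> simp [ext0, h]

/-- Coboundary. -/
noncomputable def cob (S : Set Q) (E : Set (α × Q)) : (S → ZMod 2) →ₗ[ZMod 2] (E → ZMod 2) where
  toFun φ e := ext0 S φ (of e.1.1 • e.1.2) + ext0 S φ e.1.2
  map_add' φ ψ := by
    funext e
    rw [ext0_add]
    simp only [Pi.add_apply]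
    ring
  map_smul' k φ := by
    funext e
    rw [ext0_smul]
    simp only [Pi.smul_apply, smul_eq_mul, RingHom.id_apply]
    ring

theorem ker_cob {S : Set Q} {E : Set (α × Q)} [Finite S] (base : Q) (hbase : base ∈ S)
    (hconn : ∀ φ : Q → ZMod 2, (∀ e ∈ E, φ e.2 = φ (of e.1 • e.2)) → ∀ q ∈ S, φ q = φ base) :
    Module.finrank (ZMod 2) (LinearMap.ker (cob S E)) ≤ 1 := by
  let ev : LinearMap.ker (cob S E) →ₗ[ZMod 2] ZMod 2 :=
    { toFun := fun φ => φ.1 ⟨base, hbase⟩
      map_add' := fun _ _ => rfl
      map_smul' := fun _ _ => rfl }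
  have hinj : Function.Injective ev := by
    rw [← LinearMap.ker_eq_bot, LinearMap.ker_eq_bot']
    rintro ⟨φ, hφ⟩ h0
    have h0' : φ ⟨base, hbase⟩ = 0 := h0
    have h1 : ∀ e ∈ E, ext0 S φ e.2 = ext0 S φ (of e.1 • e.2) := by
      intro e he
      have h2 := congrFun (LinearMap.mem_ker.1 hφ) ⟨e, he⟩
      change ext0 S φ (of e.1 • e.2) + ext0 S φ e.2 = 0 at h2
      have : ∀ x y : ZMod 2, x + y = 0 → y = x := by decide
      exact this _ _ h2
    have h3 := hconn _ h1
    apply Subtype.ext
    funext ⟨q, hq⟩
    have h4 := h3 q hq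
    rw [ext0_mem φ hq, ext0_mem φ hbase, h0'] at h4
    exact h4
  have := LinearMap.finrank_le_finrank_of_injective hinj
  simpa using this

theorem conn_bound {S : Set Q} {E : Set (α × Q)} [Finite S] [Finite E] (base : Q)
    (hbase : base ∈ S)
    (hconn : ∀ φ : Q → ZMod 2, (∀ e ∈ E, φ e.2 = φ (of e.1 • e.2)) → ∀ q ∈ S, φ q = φ base) :
    Nat.card S ≤ Module.finrank (ZMod 2) (LinearMap.range (cob S E)) + 1 := by
  classical
  let _ : Fintype S := Fintype.ofFinite S
  have h1 := LinearMap.finrank_range_add_finrank_ker (cob S E)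
  have h2 := ker_cob (S := S) (E := E) base hbase hconn
  rw [Module.finrank_fintype_fun_eq_card, ← Nat.card_eq_fintype_card] at h1
  omega

theorem conn_bound' {S : Set Q} {E : Set (α × Q)} [Finite S] [Finite E] (base : Q)
    (hbase : base ∈ S)
    (hconn : ∀ φ : Q → ZMod 2, (∀ e ∈ E, φ e.2 = φ (of e.1 • e.2)) → ∀ q ∈ S, φ q = φ base) :
    Nat.card S ≤ Nat.card E + 1 := by
  classical
  let _ : Fintype E := Fintype.ofFinite E
  have h1 := conn_bound (S := S) (E := E) base hbase hconn
  have h2 := Submodule.finrank_le (LinearMap.range (cob S E))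
  rw [Module.finrank_fintype_fun_eq_card, ← Nat.card_eq_fintype_card] at h2
  omega

/-- Path sums of loops as a linear map. -/
noncomputable def loopMap (X : Finset (FreeGroup α)) (E : Set (α × Q)) (base : Q) :
    (E → ZMod 2) →ₗ[ZMod 2] (X → ZMod 2) where
  toFun f x := ps (ext0 E f) (toWord (x : FreeGroup α)) base
  map_add' f g := by
    funext x
    rw [ext0_add, ps_add]
    rfl
  map_smul' k f := by
    funext x
    rw [ext0_smul, ps_smul]
    rfl

theorem loop_cob {X : Finset (FreeGroup α)} {S : Set Q} {E : Set (α × Q)} (base : Q)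
    (hused : ∀ x ∈ X, used E (toWord x) base) (hstab : ∀ x ∈ X, x • base = base) :
    LinearMap.range (cob S E) ≤ LinearMap.ker (loopMap X E base) := by
  rintro _ ⟨φ, rfl⟩
  rw [LinearMap.mem_ker]
  funext ⟨x, hx⟩
  change ps (ext0 E (cob S E φ)) (toWord x) base = 0
  have h1 : ps (ext0 E (cob S E φ)) (toWord x) base =
      ps (fun e => ext0 S φ (of e.1 • e.2) + ext0 S φ e.2) (toWord x) base := by
    apply ps_congr (E := E) _ _ _ (hused x hx)
    intro e he
    rw [ext0_mem _ he]
    rfl
  rw [h1, ps_cocycle (k := fun g q => ext0 S φ (g • q) + ext0 S φ q), mk_toWord, hstab x hx]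
  · have : ∀ x : ZMod 2, x + x = 0 := by decide
    exact this _
  · intro q
    rw [one_smul]
    have : ∀ x : ZMod 2, x + x = 0 := by decide
    exact this _
  · intro g g' q
    rw [mul_smul]
    have : ∀ x y z : ZMod 2, x + y = x + z + (z + y) := by decide
    exact this _ _ _
  · intro a q
    rfl

end paths

section upper

variable (X : Finset (FreeGroup α))

/-- The subgroup generated by `X`, as a range. -/
abbrev subH : Subgroup (FreeGroup α) := (FreeGroup.lift (fun x : X => (x : FreeGroup α))).range

theorem mem_subH {x : FreeGroup α} (hx : x ∈ X) : x ∈ subH X :=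
  ⟨of ⟨x, hx⟩, by simp⟩

theorem loop_surj (hX : Function.Injective (FreeGroup.lift (fun x : X => (x : FreeGroup α))))
    (E : Set (α × (FreeGroup α ⧸ subH X)))
    (hused : ∀ x ∈ X, used E (toWord x) ((1 : FreeGroup α) : FreeGroup α ⧸ subH X)) :
    Function.Surjective (loopMap X E ((1 : FreeGroup α) : FreeGroup α ⧸ subH X)) := by
  classical
  intro f
  set base : FreeGroup α ⧸ subH X := ((1 : FreeGroup α) : FreeGroup α ⧸ subH X) with hbase
  let χ0 : FreeGroup X →* Multiplicative (ZMod 2) :=
    FreeGroup.lift (fun x => Multiplicative.ofAdd (f x))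
  let eH : FreeGroup X ≃* subH X := MonoidHom.ofInjective hX
  let χ : subH X →* Multiplicative (ZMod 2) := χ0.comp eH.symm.toMonoidHom
  let χ' : FreeGroup α → ZMod 2 := fun g => if h : g ∈ subH X then (χ ⟨g, h⟩).toAdd else 0
  have hχmul : ∀ g g', g ∈ subH X → g' ∈ subH X → χ' (g * g') = χ' g + χ' g' := by
    intro g g' h h'
    simp only [χ']
    rw [dif_pos h, dif_pos h', dif_pos ((subH X).mul_mem h h'), ← toAdd_mul, ← _root_.map_mul]
    rfl
  have hχ1 : χ' 1 = 0 := by
    have := hχmul 1 1 (subH X).one_mem (subH X).one_mem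
    rw [one_mul] at this
    have h2 : ∀ x : ZMod 2, x = x + x → x = 0 := by decide
    exact h2 _ this
  have hχX : ∀ x (hx : x ∈ X), χ' x = f ⟨x, hx⟩ := by
    intro x hx
    simp only [χ']
    rw [dif_pos (mem_subH X hx)]
    have : eH.symm ⟨x, mem_subH X hx⟩ = of ⟨x, hx⟩ := by
      rw [MulEquiv.symm_apply_eq]
      apply Subtype.ext
      change x = ((eH (of ⟨x, hx⟩) : subH X) : FreeGroup α)
      rw [MonoidHom.ofInjective_apply, lift_apply_of]
    change ((χ0 (eH.symm ⟨x, mem_subH X hx⟩)).toAdd) = _
    rw [this]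
    simp [χ0]
  let t : FreeGroup α ⧸ subH X → FreeGroup α := Quotient.out
  have ht : ∀ q, ((t q : FreeGroup α) : FreeGroup α ⧸ subH X) = q := fun q => Quotient.out_eq q
  have hmem : ∀ (g : FreeGroup α) q, (t (g • q))⁻¹ * (g * t q) ∈ subH X := by
    intro g q
    rw [← QuotientGroup.eq, ht]
    conv_lhs => rw [← ht q]
    rfl
  let k : FreeGroup α → (FreeGroup α ⧸ subH X) → ZMod 2 := fun g q =>
    χ' ((t (g • q))⁻¹ * (g * t q))
  have hk1 : ∀ q, k 1 q = 0 := by
    intro q
    simp only [k, one_smul, one_mul, inv_mul_cancel, hχ1]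
  have hkmul : ∀ g g' q, k (g * g') q = k g (g' • q) + k g' q := by
    intro g g' q
    simp only [k]
    rw [← hχmul _ _ (hmem g (g' • q)) (hmem g' q), mul_smul]
    congr 1
    group
  refine ⟨fun e => k (of e.1.1) e.1.2, ?_⟩
  funext ⟨x, hx⟩
  change ps (ext0 E (fun e => k (of e.1.1) e.1.2)) (toWord x) base = f ⟨x, hx⟩
  have h1 : ps (ext0 E (fun e => k (of e.1.1) e.1.2)) (toWord x) base =
      ps (fun e => k (of e.1) e.2) (toWord x) base := by
    apply ps_congr (E := E) _ _ _ (hused x hx)
    intro e he
    rw [ext0_mem _ he]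
  rw [h1, ps_cocycle (k := k) hk1 hkmul (fun _ _ => rfl), mk_toWord]
  simp only [k]
  have hxb : x • base = base := by
    rw [hbase]
    change ((x * 1 : FreeGroup α) : FreeGroup α ⧸ subH X) = _
    rw [mul_one, eq_comm, QuotientGroup.eq]
    simpa using mem_subH X hx
  have htb : t base ∈ subH X := by
    have := ht base
    rw [hbase, eq_comm, QuotientGroup.eq] at this
    simpa using this
  have htb' : (t base)⁻¹ ∈ subH X := (subH X).inv_mem htb
  rw [hxb, hχmul _ _ htb' ((subH X).mul_mem (mem_subH X hx) htb),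
    hχmul _ _ (mem_subH X hx) htb, hχX x hx]
  have h5 := hχmul _ _ htb' htb
  rw [inv_mul_cancel, hχ1] at h5
  have : ∀ x y z : ZMod 2, 0 = x + y → x + (z + y) = z := by decide
  exact this _ _ _ h5

theorem key_bound (hX : Function.Injective (FreeGroup.lift (fun x : X => (x : FreeGroup α))))
    (S : Set (FreeGroup α ⧸ subH X)) (E : Set (α × (FreeGroup α ⧸ subH X)))
    [Finite S] [Finite E]
    (hbase : ((1 : FreeGroup α) : FreeGroup α ⧸ subH X) ∈ S)
    (hconn : ∀ φ : (FreeGroup α ⧸ subH X) → ZMod 2, (∀ e ∈ E, φ e.2 = φ (of e.1 • e.2)) →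
      ∀ q ∈ S, φ q = φ ((1 : FreeGroup α) : FreeGroup α ⧸ subH X))
    (hused : ∀ x ∈ X, used E (toWord x) ((1 : FreeGroup α) : FreeGroup α ⧸ subH X)) :
    X.card + Nat.card S ≤ Nat.card E + 1 := by
  classical
  set base : FreeGroup α ⧸ subH X := ((1 : FreeGroup α) : FreeGroup α ⧸ subH X) with hbase'
  have hstab : ∀ x ∈ X, x • base = base := by
    intro x hx
    rw [hbase']
    change ((x * 1 : FreeGroup α) : FreeGroup α ⧸ subH X) = _
    rw [mul_one, eq_comm, QuotientGroup.eq]
    simpa using mem_subH X hx
  let _ : Fintype E := Fintype.ofFinite E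
  have h1 := conn_bound (S := S) (E := E) base hbase hconn
  have h2 := Submodule.finrank_mono (loop_cob (S := S) base hused hstab)
  have h3 := LinearMap.finrank_range_add_finrank_ker (loopMap X E base)
  have h4 : Module.finrank (ZMod 2) (LinearMap.range (loopMap X E base)) = X.card := by
    rw [LinearMap.range_eq_top.2 (loop_surj X hX E hused), finrank_top,
      Module.finrank_fintype_fun_eq_card]
    simp
  rw [h4, Module.finrank_fintype_fun_eq_card, ← Nat.card_eq_fintype_card] at h3
  omega

/-- The ball in the coset space. -/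
def ballQ (m : ℕ) : Set (FreeGroup α ⧸ subH X) :=
  (fun g : FreeGroup α => (g : FreeGroup α ⧸ subH X)) '' (ball α m)

theorem finite_ballQ [Finite α] (m : ℕ) : (ballQ X m).Finite := (finite_ball α m).image _

theorem ballQ_mono {m n : ℕ} (h : m ≤ n) : ballQ X m ⊆ ballQ X n := by
  apply Set.image_mono
  intro g hg
  change FreeGroup.norm g ≤ m at hg
  change FreeGroup.norm g ≤ n
  omega

theorem card_ballQ_le [Finite α] (m : ℕ) : Nat.card (ballQ X m) ≤ Nat.card (ball α m) := by
  rw [Nat.card_coe_set_eq, Nat.card_coe_set_eq]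
  exact Set.ncard_image_le (finite_ball α m)

theorem mk_mem_ballQ {m : ℕ} {L : List (α × Bool)} (h : L.length ≤ m) :
    (mk L : FreeGroup α) • ((1 : FreeGroup α) : FreeGroup α ⧸ subH X) ∈ ballQ X m := by
  refine ⟨mk L, ?_, ?_⟩
  · change FreeGroup.norm (mk L) ≤ m
    exact (FreeGroup.norm_mk_le).trans h
  · change _ = ((mk L * 1 : FreeGroup α) : FreeGroup α ⧸ subH X)
    rw [mul_one]

theorem ballQ_eq {m : ℕ} {q : FreeGroup α ⧸ subH X} (h : q ∈ ballQ X m) :
    ∃ L : List (α × Bool), L.length ≤ m ∧
      q = (mk L : FreeGroup α) • ((1 : FreeGroup α) : FreeGroup α ⧸ subH X) := by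
  obtain ⟨g, hg, rfl⟩ := h
  refine ⟨toWord g, hg, ?_⟩
  change _ = ((mk (toWord g) * 1 : FreeGroup α) : FreeGroup α ⧸ subH X)
  rw [mk_toWord, mul_one]

/-- adjacency of the two ends of an edge -/
theorem edge_ends {Q : Type} [MulAction (FreeGroup α) Q] (c : α × Bool) (L : List (α × Bool))
    (q : Q) :
    ((edge c L q).2 = (mk L : FreeGroup α) • q ∧
      of (edge c L q).1 • (edge c L q).2 = (mk (c :: L) : FreeGroup α) • q) ∨
    ((edge c L q).2 = (mk (c :: L) : FreeGroup α) • q ∧
      of (edge c L q).1 • (edge c L q).2 = (mk L : FreeGroup α) • q) := by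
  obtain ⟨a, b⟩ := c
  cases b with
  | true =>
    left
    refine ⟨rfl, ?_⟩
    simp only [edge, if_true]
    rw [mk_cons_true, mul_smul]
  | false =>
    right
    refine ⟨rfl, ?_⟩
    simp only [edge, Bool.false_eq_true, if_false]
    rw [mk_cons_false, ← mul_smul]
    congr 1
    group

theorem conn_of (m : ℕ) (E : Set (α × (FreeGroup α ⧸ subH X)))
    (hE : ∀ (c : α × Bool) (L : List (α × Bool)), L.length + 1 ≤ m →
      edge c L ((1 : FreeGroup α) : FreeGroup α ⧸ subH X) ∈ E)
    (φ : (FreeGroup α ⧸ subH X) → ZMod 2) (hφ : ∀ e ∈ E, φ e.2 = φ (of e.1 • e.2)) :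
    ∀ q ∈ ballQ X m, φ q = φ ((1 : FreeGroup α) : FreeGroup α ⧸ subH X) := by
  intro q hq
  obtain ⟨L, hL, rfl⟩ := ballQ_eq X hq
  clear hq
  induction L with
  | nil =>
    have : (mk [] : FreeGroup α) = 1 := rfl
    rw [this, one_smul]
  | cons c L ih =>
    simp only [List.length_cons] at hL
    have ih' := ih (by omega)
    have h1 := hφ _ (hE c L hL)
    rcases edge_ends c L ((1 : FreeGroup α) : FreeGroup α ⧸ subH X) with ⟨h2, h3⟩ | ⟨h2, h3⟩
    · rw [h3, h2] at h1
      rw [← h1, ih']
    · rw [h3, h2] at h1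
      rw [h1, ih']

theorem used_of (E : Set (α × (FreeGroup α ⧸ subH X))) (n : ℕ)
    (hE : ∀ (c : α × Bool) (L P : List (α × Bool)), P.length + 1 + L.length ≤ n →
      ((mk (P ++ c :: L) : FreeGroup α)) • ((1 : FreeGroup α) : FreeGroup α ⧸ subH X) =
        ((1 : FreeGroup α) : FreeGroup α ⧸ subH X) →
      edge c L ((1 : FreeGroup α) : FreeGroup α ⧸ subH X) ∈ E)
    (L P : List (α × Bool)) (hn : (P ++ L).length ≤ n)
    (hfix : ((mk (P ++ L) : FreeGroup α)) • ((1 : FreeGroup α) : FreeGroup α ⧸ subH X) =
        ((1 : FreeGroup α) : FreeGroup α ⧸ subH X)) :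
    used E L ((1 : FreeGroup α) : FreeGroup α ⧸ subH X) := by
  induction L generalizing P with
  | nil => trivial
  | cons c L ih =>
    refine ⟨ih (P ++ [c]) (by simpa using hn) (by simpa using hfix), ?_⟩
    apply hE c L P _ hfix
    simp only [List.length_append, List.length_cons] at hn
    omega

/-- a suffix vertex is also reached by the inverse of the prefix -/
theorem suffix_vertex {m : ℕ} (P L : List (α × Bool))
    (hfix : ((mk (P ++ L) : FreeGroup α)) • ((1 : FreeGroup α) : FreeGroup α ⧸ subH X) =
        ((1 : FreeGroup α) : FreeGroup α ⧸ subH X)) (hP : P.length ≤ m) :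
    (mk L : FreeGroup α) • ((1 : FreeGroup α) : FreeGroup α ⧸ subH X) ∈ ballQ X m := by
  have h1 : (mk L : FreeGroup α) • ((1 : FreeGroup α) : FreeGroup α ⧸ subH X) =
      (mk (invRev P) : FreeGroup α) • ((1 : FreeGroup α) : FreeGroup α ⧸ subH X) := by
    rw [← inv_mk, eq_inv_smul_iff, ← mul_smul, mul_mk, hfix]
  rw [h1]
  apply mk_mem_ballQ
  rw [invRev_length]
  exact hP

theorem fix_of_mem {x : FreeGroup α} (hx : x ∈ X) :
    x • ((1 : FreeGroup α) : FreeGroup α ⧸ subH X) = ((1 : FreeGroup α) : FreeGroup α ⧸ subH X) := by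
  change ((x * 1 : FreeGroup α) : FreeGroup α ⧸ subH X) = _
  rw [mul_one, eq_comm, QuotientGroup.eq]
  simpa using mem_subH X hx

theorem base_mem_ballQ (m : ℕ) : ((1 : FreeGroup α) : FreeGroup α ⧸ subH X) ∈ ballQ X m :=
  ⟨1, by simp [ball], rfl⟩

theorem upper_odd [Fintype α] [Nonempty α] (m : ℕ)
    (hX : Function.Injective (FreeGroup.lift (fun x : X => (x : FreeGroup α))))
    (hn : ∀ x ∈ X, FreeGroup.norm x ≤ 2 * m + 1) :
    X.card ≤ Fintype.card α * (2 * Fintype.card α - 1) ^ m := by
  classical
  set S := ballQ X m with hS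
  let E : Set (α × (FreeGroup α ⧸ subH X)) := {e | e.2 ∈ S ∧ of e.1 • e.2 ∈ S}
  have hSfin : S.Finite := finite_ballQ X m
  have hEsub : E ⊆ Set.univ ×ˢ S := fun e he => ⟨trivial, he.1⟩
  have hUfin : (Set.univ ×ˢ S : Set (α × (FreeGroup α ⧸ subH X))).Finite :=
    Set.finite_univ.prod hSfin
  have hEfin : E.Finite := hUfin.subset hEsub
  have : Finite S := hSfin
  have : Finite E := hEfin
  have hcardE : Nat.card E ≤ Fintype.card α * Nat.card S := by
    have h1 := Set.ncard_le_ncard hEsub hUfin
    rw [Set.ncard_prod, Set.ncard_univ, Nat.card_eq_fintype_card] at h1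
    exact h1
  have hedge : ∀ (c : α × Bool) (L : List (α × Bool)),
      (mk L : FreeGroup α) • ((1 : FreeGroup α) : FreeGroup α ⧸ subH X) ∈ S →
      (mk (c :: L) : FreeGroup α) • ((1 : FreeGroup α) : FreeGroup α ⧸ subH X) ∈ S →
      edge c L ((1 : FreeGroup α) : FreeGroup α ⧸ subH X) ∈ E := by
    intro c L h1 h2
    rcases edge_ends c L ((1 : FreeGroup α) : FreeGroup α ⧸ subH X) with ⟨h3, h4⟩ | ⟨h3, h4⟩
    · exact ⟨by rw [h3]; exact h1, by rw [h4]; exact h2⟩
    · exact ⟨by rw [h3]; exact h2, by rw [h4]; exact h1⟩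
  have hkey := key_bound X hX S E (base_mem_ballQ X m)
    (fun φ hφ => conn_of X m E (fun c L hL => hedge c L (mk_mem_ballQ X (by omega))
      (mk_mem_ballQ X (by simpa using hL))) φ hφ)
    (fun x hx => used_of X E (2 * m + 1) (fun c L P hlen hfix => by
      apply hedge
      · by_cases h : L.length ≤ m
        · exact mk_mem_ballQ X h
        · refine suffix_vertex X (P ++ [c]) L (by simpa using hfix) ?_
          simp only [List.length_append, List.length_cons, List.length_nil]
          omega
      · by_cases h : L.length + 1 ≤ m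
        · exact mk_mem_ballQ X (by simpa using h)
        · refine suffix_vertex X P (c :: L) hfix ?_
          omega) (toWord x) [] (hn x hx) (by
        rw [List.nil_append, mk_toWord]; exact fix_of_mem X hx))
  have h1 := card_ballQ_le X m
  have h2 := card_ball (α := α) m
  have hpos : 0 < Fintype.card α := Fintype.card_pos
  obtain ⟨r, hr⟩ : ∃ r, Fintype.card α = r + 1 := ⟨Fintype.card α - 1, by omega⟩
  rw [hr] at hcardE h2 ⊢
  generalize (r + 1) * (2 * (r + 1) - 1) ^ m = q at *
  change Nat.card S ≤ _ at h1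
  generalize Nat.card S = s at *
  generalize Nat.card E = e at *
  generalize Nat.card (ball α m) = b at *
  nlinarith

theorem upper_even [Fintype α] [Nonempty α] (m : ℕ)
    (hX : Function.Injective (FreeGroup.lift (fun x : X => (x : FreeGroup α))))
    (hn : ∀ x ∈ X, FreeGroup.norm x ≤ 2 * m + 2) :
    X.card ≤ (2 * Fintype.card α - 1) ^ (m + 1) := by
  classical
  set I := ballQ X m with hI
  set S := ballQ X (m + 1) with hS
  have hIS : I ⊆ S := ballQ_mono X (Nat.le_succ m)
  have hIfin : I.Finite := finite_ballQ X m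
  have hSfin : S.Finite := finite_ballQ X (m + 1)
  let A : Set (α × (FreeGroup α ⧸ subH X)) := {e | e.2 ∈ I}
  let B : Set (α × (FreeGroup α ⧸ subH X)) := {e | of e.1 • e.2 ∈ I}
  have hAeq : A = Set.univ ×ˢ I := by
    ext e
    simp [A, Set.mem_prod]
  have hAfin : A.Finite := by rw [hAeq]; exact Set.finite_univ.prod hIfin
  have hAcard : A.ncard = Fintype.card α * Nat.card I := by
    rw [hAeq, Set.ncard_prod, Set.ncard_univ, Nat.card_eq_fintype_card, Nat.card_coe_set_eq]
  let sh : α × (FreeGroup α ⧸ subH X) → α × (FreeGroup α ⧸ subH X) :=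
    fun e => (e.1, of e.1 • e.2)
  have hsh : Function.Injective sh := by
    rintro ⟨a, q⟩ ⟨a', q'⟩ h
    simp only [sh, Prod.mk.injEq] at h
    obtain ⟨rfl, h⟩ := h
    rw [smul_left_cancel_iff] at h
    rw [h]
  have hshB : sh '' B = A := by
    ext ⟨a, q⟩
    constructor
    · rintro ⟨⟨a', q'⟩, h1, h2⟩
      rw [← h2]
      exact h1
    · intro h
      refine ⟨(a, (of a)⁻¹ • q), ?_, ?_⟩
      · change of a • ((of a)⁻¹ • q) ∈ I
        rw [smul_inv_smul]
        exact h
      · simp only [sh]
        rw [smul_inv_smul]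
  have hBfin : B.Finite := by
    have : (sh '' B).Finite := by rw [hshB]; exact hAfin
    exact this.of_finite_image hsh.injOn
  have hBcard : B.ncard = Fintype.card α * Nat.card I := by
    rw [← hAcard, ← hshB, Set.ncard_image_of_injective _ hsh]
  let E : Set (α × (FreeGroup α ⧸ subH X)) := A ∪ B
  let E1 : Set (α × (FreeGroup α ⧸ subH X)) := A ∩ B
  have hEfin : E.Finite := hAfin.union hBfin
  have hE1fin : E1.Finite := hAfin.subset Set.inter_subset_left
  have hcount : E.ncard + E1.ncard = 2 * (Fintype.card α * Nat.card I) := by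
    have := Set.ncard_union_add_ncard_inter A B hAfin hBfin
    rw [hAcard, hBcard] at this
    simp only [E, E1]
    omega
  -- the outer vertices
  let O : Set (FreeGroup α ⧸ subH X) := S \ I
  have hOfin : O.Finite := hSfin.subset Set.sdiff_subset
  have hSI : Nat.card S = Nat.card I + O.ncard := by
    rw [Nat.card_coe_set_eq, Nat.card_coe_set_eq]
    have := Set.ncard_sdiff_add_ncard_of_subset hIS hSfin
    simp only [O]
    omega
  have hstep : ∀ (a : α) (q : FreeGroup α ⧸ subH X), q ∈ I → of a • q ∈ S := by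
    intro a q hq
    obtain ⟨L, hL, rfl⟩ := ballQ_eq X hq
    rw [← mul_smul, ← mk_cons_true]
    exact mk_mem_ballQ X (by simpa using hL)
  have hstep' : ∀ (a : α) (q : FreeGroup α ⧸ subH X), of a • q ∈ I → q ∈ S := by
    intro a q hq
    obtain ⟨L, hL, h⟩ := ballQ_eq X hq
    have : q = (mk ((a, false) :: L) : FreeGroup α) •
        ((1 : FreeGroup α) : FreeGroup α ⧸ subH X) := by
      rw [mk_cons_false, mul_smul, ← h, inv_smul_smul]
    rw [this]
    exact mk_mem_ballQ X (by simpa using hL)
  have hdiff : (E \ E1).ncard ≤ 2 * (Fintype.card α * O.ncard) := by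
    have hsub : E \ E1 ⊆ (sh ⁻¹' (Set.univ ×ˢ O)) ∪ (Set.univ ×ˢ O) := by
      rintro ⟨a, q⟩ ⟨h1, h2⟩
      by_cases hq : q ∈ I
      · left
        refine ⟨trivial, hstep a q hq, ?_⟩
        intro h3
        exact h2 ⟨hq, h3⟩
      · right
        rcases h1 with h1 | h1
        · exact absurd h1 hq
        · exact ⟨trivial, hstep' a q h1, hq⟩
    have hPfin : (Set.univ ×ˢ O : Set (α × (FreeGroup α ⧸ subH X))).Finite :=
      Set.finite_univ.prod hOfin
    have hPcard : (Set.univ ×ˢ O : Set (α × (FreeGroup α ⧸ subH X))).ncard =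
        Fintype.card α * O.ncard := by
      rw [Set.ncard_prod, Set.ncard_univ, Nat.card_eq_fintype_card]
    have hPre : (sh ⁻¹' (Set.univ ×ˢ O)).Finite := hPfin.preimage hsh.injOn
    have hPrecard : (sh ⁻¹' (Set.univ ×ˢ O)).ncard ≤ Fintype.card α * O.ncard := by
      rw [← hPcard]
      rw [← Set.ncard_image_of_injective _ hsh]
      exact Set.ncard_le_ncard (Set.image_preimage_subset _ _) hPfin
    have h1 := Set.ncard_le_ncard hsub (hPre.union hPfin)
    have h2 := Set.ncard_union_le (sh ⁻¹' (Set.univ ×ˢ O)) (Set.univ ×ˢ O)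
    rw [hPcard] at h2
    omega
  have hE1E : E1 ⊆ E := fun e he => Or.inl he.1
  have hdiff2 : E.ncard = (E \ E1).ncard + E1.ncard :=
    (Set.ncard_sdiff_add_ncard_of_subset hE1E hEfin).symm
  have : Finite S := hSfin
  have : Finite I := hIfin
  have : Finite E := hEfin
  have : Finite E1 := hE1fin
  have hedge : ∀ (c : α × Bool) (L : List (α × Bool)),
      ((mk L : FreeGroup α) • ((1 : FreeGroup α) : FreeGroup α ⧸ subH X) ∈ I ∨
      (mk (c :: L) : FreeGroup α) • ((1 : FreeGroup α) : FreeGroup α ⧸ subH X) ∈ I) →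
      edge c L ((1 : FreeGroup α) : FreeGroup α ⧸ subH X) ∈ E := by
    intro c L h1
    rcases edge_ends c L ((1 : FreeGroup α) : FreeGroup α ⧸ subH X) with ⟨h3, h4⟩ | ⟨h3, h4⟩
    · rcases h1 with h1 | h1
      · left; change _ ∈ I; rw [h3]; exact h1
      · right; change _ ∈ I; rw [h4]; exact h1
    · rcases h1 with h1 | h1
      · right; change _ ∈ I; rw [h4]; exact h1
      · left; change _ ∈ I; rw [h3]; exact h1
  have hedge1 : ∀ (c : α × Bool) (L : List (α × Bool)), L.length + 1 ≤ m →
      edge c L ((1 : FreeGroup α) : FreeGroup α ⧸ subH X) ∈ E1 := by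
    intro c L hL
    have h1 : (mk L : FreeGroup α) • ((1 : FreeGroup α) : FreeGroup α ⧸ subH X) ∈ I :=
      mk_mem_ballQ X (by omega)
    have h2 : (mk (c :: L) : FreeGroup α) • ((1 : FreeGroup α) : FreeGroup α ⧸ subH X) ∈ I :=
      mk_mem_ballQ X (by simpa using hL)
    rcases edge_ends c L ((1 : FreeGroup α) : FreeGroup α ⧸ subH X) with ⟨h3, h4⟩ | ⟨h3, h4⟩
    · exact ⟨by change _ ∈ I; rw [h3]; exact h1, by change _ ∈ I; rw [h4]; exact h2⟩
    · exact ⟨by change _ ∈ I; rw [h3]; exact h2, by change _ ∈ I; rw [h4]; exact h1⟩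
  have hkey := key_bound X hX S E (base_mem_ballQ X (m + 1))
    (fun φ hφ => conn_of X (m + 1) E (fun c L hL => hedge c L
      (Or.inl (mk_mem_ballQ X (by omega)))) φ hφ)
    (fun x hx => used_of X E (2 * m + 2) (fun c L P hlen hfix => by
      apply hedge
      by_cases h : L.length ≤ m
      · left
        exact mk_mem_ballQ X h
      · right
        refine suffix_vertex X P (c :: L) hfix ?_
        omega) (toWord x) [] (hn x hx) (by
        rw [List.nil_append, mk_toWord]; exact fix_of_mem X hx))
  have hconn1 := conn_bound' (S := I) (E := E1) _ (base_mem_ballQ X m)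
    (fun φ hφ => conn_of X m E1 hedge1 φ hφ)
  have h1 := card_ballQ_le X m
  have h2 := card_ball (α := α) m
  have hpos : 0 < Fintype.card α := Fintype.card_pos
  obtain ⟨r, hr⟩ : ∃ r, Fintype.card α = r + 1 := ⟨Fintype.card α - 1, by omega⟩
  rw [Nat.card_coe_set_eq E] at hkey
  rw [Nat.card_coe_set_eq E1] at hconn1
  rw [hSI] at hkey
  change Nat.card I ≤ _ at h1
  have e5 : 2 * (r + 1) - 1 = 2 * r + 1 := by omega
  rw [hr] at hcount hdiff h2 ⊢
  rw [e5] at h2 ⊢
  rw [pow_succ]
  generalize (2 * r + 1) ^ m = q at *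
  generalize Nat.card I = i at *
  generalize E.ncard = e at *
  generalize E1.ncard = e1 at *
  generalize (E \ E1).ncard = d at *
  generalize O.ncard = o at *
  generalize X.card = x at *
  generalize Nat.card (ball α m) = b at *
  -- the final count
  have k1 : (r : ℤ) * i + 1 ≤ (r + 1) * q := by
    have h2' : ((r : ℤ) + 1) * q + b = (r + 1) * b + 1 := by exact_mod_cast h2
    have h1' : (i : ℤ) ≤ b := by exact_mod_cast h1
    have hr0 : (0 : ℤ) ≤ r := by positivity
    nlinarith
  have k2 : (e : ℤ) + e1 = 2 * ((r + 1) * i) := by exact_mod_cast hcount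
  have k3 : (e : ℤ) ≤ 2 * ((r + 1) * o) + e1 := by
    have : e ≤ 2 * ((r + 1) * o) + e1 := by omega
    exact_mod_cast this
  have k4 : (x : ℤ) + (i + o) ≤ e + 1 := by exact_mod_cast hkey
  have k5 : (i : ℤ) ≤ e1 + 1 := by exact_mod_cast hconn1
  have hr0 : (0 : ℤ) ≤ r := by positivity
  have k6 : 2 * ((r : ℤ) + 1) * x ≤ 2 * ((r : ℤ) + 1) * ((2 * r + 1) * q) := by
    have hA : 2 * ((r : ℤ) + 1) * (x + (i + o)) ≤ 2 * ((r : ℤ) + 1) * (e + 1) :=
      mul_le_mul_of_nonneg_left k4 (by positivity)
    have hB : (r : ℤ) * i ≤ r * (e1 + 1) := mul_le_mul_of_nonneg_left k5 hr0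
    have hC : (2 * (2 * (r : ℤ) + 1)) * (r * i + 1) ≤ (2 * (2 * (r : ℤ) + 1)) * ((r + 1) * q) :=
      mul_le_mul_of_nonneg_left k1 (by positivity)
    have he : (e : ℤ) = 2 * ((r + 1) * i) - e1 := by linarith
    rw [he] at hA k3
    nlinarith
  have k7 : (x : ℤ) ≤ (2 * r + 1) * q := by
    have : (0 : ℤ) < 2 * (r + 1) := by positivity
    exact le_of_mul_le_mul_left k6 this
  have k8 : x ≤ (2 * r + 1) * q := by exact_mod_cast k7
  rw [mul_comm q]
  exact k8

end upper

/-- The largest size of a subset of the ball of radius `n` in the free group of rank `r` that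
freely generates a subgroup. -/
theorem result (r : ℕ) (hr : 1 ≤ r) (n : ℕ) :
    IsGreatest {k : ℕ | ∃ X : Finset (FreeGroup (Fin r)),
        (∀ g ∈ X, FreeGroup.norm g ≤ n) ∧
        Function.Injective (FreeGroup.lift (fun x : X => (x : FreeGroup (Fin r)))) ∧
        X.card = k}
      (if n = 0 then 0
        else if Even n then (2 * r - 1) ^ (n / 2)
        else r * (2 * r - 1) ^ (n / 2)) := by
  have : NeZero r := ⟨by omega⟩
  have hne : Nonempty (Fin r) := ⟨0⟩
  by_cases h0 : n = 0
  · subst h0
    simp only [if_true]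
    constructor
    · refine ⟨∅, by simp, ?_, rfl⟩
      intro x y _
      have : Subsingleton (FreeGroup (∅ : Finset (FreeGroup (Fin r)))) := by
        have : IsEmpty (∅ : Finset (FreeGroup (Fin r))) := inferInstance
        infer_instance
      exact Subsingleton.elim x y
    · rintro k ⟨X, h1, h2, rfl⟩
      by_contra hX
      have hX' : X.Nonempty := by
        rw [Finset.nonempty_iff_ne_empty]
        rintro rfl
        simp at hX
      obtain ⟨g, hg⟩ := hX'
      have hg1 : g = 1 := by
        have := h1 g hg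
        rw [Nat.le_zero, FreeGroup.norm_eq_zero] at this
        exact this
      have h3 : FreeGroup.lift (fun x : X => (x : FreeGroup (Fin r))) (of ⟨g, hg⟩) =
          FreeGroup.lift (fun x : X => (x : FreeGroup (Fin r))) 1 := by
        rw [lift_apply_of, _root_.map_one]
        exact hg1
      exact FreeGroup.of_ne_one _ (h2 h3)
  · rw [if_neg h0]
    rcases Nat.even_or_odd' n with ⟨m, hm | hm⟩
    · obtain ⟨m', rfl⟩ : ∃ m', m = m' + 1 := ⟨m - 1, by omega⟩
      have he : Even n := ⟨m' + 1, by omega⟩
      have hd : n / 2 = m' + 1 := by omega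
      have hn : n = 2 * m' + 2 := by omega
      rw [if_pos he, hd]
      constructor
      · obtain ⟨X, h1, h2, h3⟩ := lower_even (α := Fin r) m'
        refine ⟨X, ?_, h2, by simpa using h3⟩
        intro g hg
        rw [hn]
        exact h1 g hg
      · rintro k ⟨X, h1, h2, rfl⟩
        have := upper_even X m' h2 (fun x hx => by rw [← hn]; exact h1 x hx)
        simpa using this
    · have he : ¬ Even n := by
        rw [Nat.not_even_iff_odd]
        exact ⟨m, hm⟩
      have hd : n / 2 = m := by omega
      rw [if_neg he, hd]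
      constructor
      · obtain ⟨X, h1, h2, h3⟩ := lower_odd (α := Fin r) m
        refine ⟨X, ?_, h2, by simpa using h3⟩
        intro g hg
        rw [hm]
        exact h1 g hg
      · rintro k ⟨X, h1, h2, rfl⟩
        have := upper_odd X m h2 (fun x hx => by rw [← hm]; exact h1 x hx)
        simpa using this

end Pool.Agent.Results.MP_15e198_al.Main
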